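import Pool.Agent.helper99.IT.Spec

set_option autoImplicit false

namespace Pool.Agent.IT

open Finset Pool.Agent.AT

theorem ITG_br_succ (a b n : ℕ) : br a b (n + 1) = b * br a b n + a ^ n := by
  unfold br
  rw [Finset.sum_range_succ, Finset.mul_sum]
  congr 1
  · apply Finset.sum_congr rfl
    intro i hi
    have hi' : i < n := Finset.mem_range.mp hi
    have h1 : n + 1 - 1 - i = (n - 1 - i) + 1 := by omega
    rw [h1, pow_succ]
    ring
  · have h1 : n + 1 - 1 - n = 0 := by omega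
    rw [h1]
    simp

theorem ITG_br_add (a b m n : ℕ) : br a b (m + n) = b ^ m * br a b n + a ^ n * br a b m := by
  induction m with
  | zero =>
    have h0 : br a b 0 = 0 := by simp [br]
    simp [h0]
  | succ m ih =>
    have h1 : m + 1 + n = (m + n) + 1 := by ring
    rw [h1, ITG_br_succ, ih, ITG_br_succ, pow_add, pow_succ]
    ring

theorem ITG_br_pos (a b m : ℕ) (ha : 1 ≤ a) (hm : 0 < m) : 0 < br a b m := by
  obtain ⟨n, rfl⟩ : ∃ n, m = n + 1 := ⟨m - 1, by omega⟩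
  rw [ITG_br_succ]
  have : 0 < a ^ n := pow_pos ha n
  omega

theorem ITG_tc_symm (a b : ℕ) (c : ℤ) (h : Pool.Agent.helper85.FC.TrueCase a b c) :
    Pool.Agent.helper85.FC.TrueCase b a (-c) := by
  obtain ⟨h1, h2, h3, h4, h5, h6, h7, h8⟩ := h
  refine ⟨h2, h1, neg_ne_zero.mpr h3, h4.symm, h6.neg_right, h5.neg_right, ?_, ?_⟩
  · rintro ⟨k1, k2, k3⟩
    exact h7 ⟨k2, k1, by simpa using k3.neg⟩
  · have : {pq : ℕ × ℕ | pq.1.Prime ∧ pq.2.Prime ∧ (b : ℤ) * pq.1 - a * pq.2 = -c} =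
        Prod.swap '' {pq : ℕ × ℕ | pq.1.Prime ∧ pq.2.Prime ∧ (a : ℤ) * pq.1 - b * pq.2 = c} := by
      ext ⟨p, q⟩
      simp only [Set.mem_image, Prod.exists, Prod.swap_prod_mk, Prod.mk.injEq]
      constructor
      · rintro ⟨k1, k2, k3⟩
        refine ⟨q, p, ⟨k2, k1, ?_⟩, rfl, rfl⟩
        simp only at k3 ⊢
        linarith
      · rintro ⟨x, y, ⟨k1, k2, k3⟩, rfl, rfl⟩
        refine ⟨k2, k1, ?_⟩
        simp only at k3 ⊢
        linarith
    rw [this]
    exact h8.image Prod.swap_injective.injOn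

theorem ITG_pair_symm (f g : ℕ × ℤ) (h : Pair f g) : Pair g f := by
  unfold Pair at h ⊢
  have h1 := ITG_tc_symm _ _ _ h
  rw [Nat.gcd_comm g.1 f.1]
  have h2 : ((f.1 : ℤ) * g.2 - g.1 * f.2) / (Nat.gcd f.1 g.1 : ℤ) =
      -(((g.1 : ℤ) * f.2 - f.1 * g.2) / (Nat.gcd f.1 g.1 : ℤ)) := by
    have hd : ((Nat.gcd f.1 g.1 : ℕ) : ℤ) ∣ (g.1 : ℤ) * f.2 - f.1 * g.2 := by
      apply dvd_sub
      · exact Dvd.dvd.mul_right (Int.natCast_dvd_natCast.mpr (Nat.gcd_dvd_right _ _)) _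
      · exact Dvd.dvd.mul_right (Int.natCast_dvd_natCast.mpr (Nat.gcd_dvd_left _ _)) _
    rw [← Int.neg_ediv_of_dvd hd]
    congr 1
    ring
  rw [h2]
  exact h1

theorem ITG_ne (a b E : ℕ) (e : Fin 4 → ℕ) (ha : 1 ≤ a) (hb : 1 ≤ b) (he : StrictMono e)
    (i j : Fin 4) (hij : i < j) :
    ((a ^ (E - e j) * b ^ (e j) : ℕ) : ℤ) * ((a ^ (E - e i) * br a b (e i) : ℕ) : ℤ) ≠
      ((a ^ (E - e i) * b ^ (e i) : ℕ) : ℤ) * ((a ^ (E - e j) * br a b (e j) : ℕ) : ℤ) := by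
  intro h
  have h' : a ^ (E - e j) * b ^ (e j) * (a ^ (E - e i) * br a b (e i)) =
      a ^ (E - e i) * b ^ (e i) * (a ^ (E - e j) * br a b (e j)) := by exact_mod_cast h
  have hlt : e i < e j := he hij
  obtain ⟨m, hm, hm0⟩ : ∃ m, e j = m + e i ∧ 0 < m := ⟨e j - e i, by omega, by omega⟩
  have h3 := ITG_br_add a b m (e i)
  have h4 := ITG_br_pos a b m ha hm0
  rw [hm] at h'
  rw [h3, pow_add] at h'
  have hpos : 0 < a ^ (E - (m + e i)) * a ^ (E - e i) * (b ^ (e i) * (a ^ (e i) * br a b m)) := by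
    positivity
  have h5 : a ^ (E - e i) * b ^ e i * (a ^ (E - (m + e i)) * (b ^ m * br a b (e i) + a ^ e i * br a b m)) =
      a ^ (E - (m + e i)) * (b ^ m * b ^ e i) * (a ^ (E - e i) * br a b (e i)) +
      a ^ (E - (m + e i)) * a ^ (E - e i) * (b ^ (e i) * (a ^ (e i) * br a b m)) := by ring
  omega

open Classical in
theorem ITG (hGEN : GEN_stmt) (hORB : ORB_stmt) (hADO : ADO_stmt) (hPRI : PRI_stmt) : ITG_stmt := by
  intro hq a b e ha hb hab he ε hε
  set E : ℕ := e 3 with hE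
  have heE : ∀ i, e i ≤ E := fun i => he.monotone (Fin.le_last i)
  choose η hη using fun c₁ : ℕ => hORB a b E (c₁ : ℤ) ha hb hab
  set s : Fin 4 → ℕ := fun i => a ^ (E - e i) * b ^ (e i) with hs
  set α : Fin 4 → ℤ := fun i => ((a ^ (E - e i) * br a b (e i) : ℕ) : ℤ) with hα
  have hspos : ∀ i, 0 < s i := fun i => by
    simp only [hs]
    positivity
  have hne : ∀ i j : Fin 4, i ≠ j → (s j : ℤ) * α i ≠ s i * α j := by
    intro i j hij
    rcases lt_or_gt_of_ne hij with h | h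
    · exact ITG_ne a b E e ha hb he i j h
    · have := ITG_ne a b E e ha hb he j i h
      intro h2
      apply this
      simp only [hs, hα] at h2 ⊢
      linarith
  choose M₀ hM₀ using fun c₁ : ℕ => hGEN hq s α (fun i => η c₁ (e i)) hspos hne (ε / 2) (by positivity)
  set A : ℕ := a ^ E with hA
  have hApos : 0 < A := pow_pos ha E
  refine ⟨A * (∑ c₁ ∈ range A, M₀ c₁) + A, ?_⟩
  intro M hM u
  set M' : ℕ := M / A + 1 with hM'
  have hM'0 : ∀ c₁ ∈ range A, M₀ c₁ ≤ M' := by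
    intro c₁ hc₁
    have h1 : M₀ c₁ ≤ ∑ c₁ ∈ range A, M₀ c₁ := Finset.single_le_sum (f := M₀) (fun _ _ => Nat.zero_le _) hc₁
    have h2 : (∑ c₁ ∈ range A, M₀ c₁) ≤ M / A := by
      rw [Nat.le_div_iff_mul_le hApos]
      calc (∑ c₁ ∈ range A, M₀ c₁) * A = A * (∑ c₁ ∈ range A, M₀ c₁) := by ring
        _ ≤ M := by omega
    omega
  -- covering
  have hcov : ({c ∈ Ioc u (u + M) | Ad a b c ∧
    ((3 : ℤ) ∣ a * b * c ∨ ¬ (3 : ℤ) ∣ (a : ℤ) - b ∨ ∃ r : ℤ, ∀ i, ¬ (3 : ℤ) ∣ (e i : ℤ) - r) ∧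
      ∀ i j : Fin 4, i < j → ¬ It a b c (e j - e i)} : Finset ℤ) ⊆
      (range A).biUnion (fun c₁ : ℕ => ({k ∈ Ioc ((u - c₁) / (A : ℤ)) ((u - c₁) / (A : ℤ) + M') |
        BadC s α (fun i => η c₁ (e i)) k} : Finset ℤ).image (fun k => (c₁ : ℤ) + A * k)) := by
    intro c hc
    rw [Finset.mem_filter, Finset.mem_Ioc] at hc
    obtain ⟨⟨hc1, hc2⟩, hAd, hcond, hIt⟩ := hc
    have hAz : (0 : ℤ) < A := by exact_mod_cast hApos
    set k : ℤ := c / A with hk
    set c₁ : ℕ := (c % (A : ℤ)).toNat with hc₁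
    have hmod0 : 0 ≤ c % (A : ℤ) := Int.emod_nonneg _ hAz.ne'
    have hmodlt : c % (A : ℤ) < A := Int.emod_lt_of_pos _ hAz
    have hc₁z : (c₁ : ℤ) = c % (A : ℤ) := Int.toNat_of_nonneg hmod0
    have hcdec : c = (c₁ : ℤ) + A * k := by
      rw [hc₁z, hk]
      exact (Int.emod_add_mul_ediv c A).symm
    rw [Finset.mem_biUnion]
    refine ⟨c₁, ?_, ?_⟩
    · rw [Finset.mem_range]
      have : (c₁ : ℤ) < A := by rw [hc₁z]; exact hmodlt
      exact_mod_cast this
    rw [Finset.mem_image]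
    refine ⟨k, ?_, hcdec.symm⟩
    rw [Finset.mem_filter, Finset.mem_Ioc]
    refine ⟨⟨?_, ?_⟩, ?_⟩
    · rw [Int.ediv_lt_iff_lt_mul hAz]
      have : k * A = A * k := mul_comm _ _
      rw [this]
      linarith
    · -- k ≤ u' + M'
      have h1 : u - c₁ < A * ((u - c₁) / (A : ℤ)) + A := by
        have := Int.emod_add_mul_ediv (u - c₁) A
        have h2 := Int.emod_lt_of_pos (u - c₁) hAz
        linarith
      have h2 : (A : ℤ) * (k - (u - c₁) / (A : ℤ) - 1) < M := by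
        have : (A : ℤ) * k = c - c₁ := by linarith
        nlinarith
      have h3 : k - (u - c₁) / (A : ℤ) - 1 ≤ (M : ℤ) / A := by
        rw [Int.le_ediv_iff_mul_le hAz]
        nlinarith
      have h4 : ((M' : ℕ) : ℤ) = (M : ℤ) / A + 1 := by
        rw [hM']
        push_cast
        rfl
      rw [h4]
      linarith
    · -- BadC
      set h : ℕ → ℤ := fun i => η c₁ i + ((a ^ (E - i) * br a b i : ℕ) : ℤ) * k with hh
      have horb : ∀ i < E, (a : ℤ) * h (i + 1) = b * h i + c := by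
        intro i hi
        have h1 := hη c₁ i hi
        have h2 := ITG_br_succ a b i
        have h3 : E - i = (E - (i + 1)) + 1 := by omega
        have h4 : a ^ (E - i) = a ^ (E - (i + 1)) * a := by rw [h3, pow_succ]
        have h5 : A = a ^ (E - i) * a ^ i := by
          rw [hA, ← pow_add]
          congr 1
          omega
        simp only [hh]
        rw [hcdec, h5, h2, h4]
        push_cast
        have h6 : (a : ℤ) * η c₁ (i + 1) = b * η c₁ i + c₁ := h1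
        linear_combination h6
      have hadm := hADO a b E c e h hAd horb heE hcond
      have heq : (fun i : Fin 4 => (a ^ (E - e i) * b ^ (e i), h (e i))) =
          (fun i : Fin 4 => (s i, α i * k + η c₁ (e i))) := by
        funext i
        simp only [hs, hα, hh, Prod.mk.injEq, true_and]
        ring
      refine ⟨?_, ?_⟩
      · have h1 : Adm (fun i : Fin 4 => (s i, α i * k + η c₁ (e i))) := by
          rw [← heq]
          exact hadm
        exact h1
      · have key : ∀ i j : Fin 4, i < j → ¬ Pair (s j, α j * k + η c₁ (e j)) (s i, α i * k + η c₁ (e i)) := by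
          intro i j hij hp
          apply hIt i j hij
          apply hPRI a b E c h (e i) (e j) ha hb hab horb (he hij) (heE j)
          have h1 : (a ^ (E - e i) * b ^ (e i), h (e i)) = (s i, α i * k + η c₁ (e i)) := congrFun heq i
          have h2 : (a ^ (E - e j) * b ^ (e j), h (e j)) = (s j, α j * k + η c₁ (e j)) := congrFun heq j
          rw [h1, h2]
          exact hp
        intro i j hij hp
        rcases lt_or_gt_of_ne hij with h1 | h1
        · exact key i j h1 (ITG_pair_symm _ _ hp)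
        · exact key j i h1 hp
  have hcard : (#({c ∈ Ioc u (u + M) | Ad a b c ∧
    ((3 : ℤ) ∣ a * b * c ∨ ¬ (3 : ℤ) ∣ (a : ℤ) - b ∨ ∃ r : ℤ, ∀ i, ¬ (3 : ℤ) ∣ (e i : ℤ) - r) ∧
      ∀ i j : Fin 4, i < j → ¬ It a b c (e j - e i)} : Finset ℤ) : ℝ) ≤
      ∑ c₁ ∈ range A, (#({k ∈ Ioc ((u - (c₁ : ℕ)) / (A : ℤ)) ((u - (c₁ : ℕ)) / (A : ℤ) + M') |
        BadC s α (fun i => η c₁ (e i)) k} : Finset ℤ) : ℝ) := by
    have h1 := (Finset.card_le_card hcov).trans Finset.card_biUnion_le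
    have h2 : ∑ c₁ ∈ range A, #(({k ∈ Ioc ((u - (c₁ : ℕ)) / (A : ℤ)) ((u - (c₁ : ℕ)) / (A : ℤ) + M') |
        BadC s α (fun i => η c₁ (e i)) k} : Finset ℤ).image (fun k => ((c₁ : ℕ) : ℤ) + A * k)) ≤
        ∑ c₁ ∈ range A, #({k ∈ Ioc ((u - (c₁ : ℕ)) / (A : ℤ)) ((u - (c₁ : ℕ)) / (A : ℤ) + M') |
        BadC s α (fun i => η c₁ (e i)) k} : Finset ℤ) :=
      Finset.sum_le_sum (fun _ _ => Finset.card_image_le)
    exact_mod_cast h1.trans h2
  refine hcard.trans ?_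
  have hb1 : ∑ c₁ ∈ range A, (#({k ∈ Ioc ((u - (c₁ : ℕ)) / (A : ℤ)) ((u - (c₁ : ℕ)) / (A : ℤ) + M') |
        BadC s α (fun i => η c₁ (e i)) k} : Finset ℤ) : ℝ) ≤ ∑ c₁ ∈ range A, ε / 2 * (M' : ℝ) := by
    apply Finset.sum_le_sum
    intro c₁ hc₁
    exact hM₀ c₁ M' (hM'0 c₁ hc₁) _
  refine hb1.trans ?_
  rw [Finset.sum_const, Finset.card_range, nsmul_eq_mul]
  have h1 : (A : ℝ) * (M' : ℝ) ≤ M + A := by
    have h2 : A * (M / A) ≤ M := Nat.mul_div_le M A
    have h3 : A * M' ≤ M + A := by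
      rw [hM']
      have : A * (M / A + 1) = A * (M / A) + A := by ring
      omega
    exact_mod_cast h3
  have h2 : (A : ℝ) ≤ M := by
    have : A ≤ M := by omega
    exact_mod_cast this
  nlinarith

end Pool.Agent.IT
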